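import Pool.Agent.N912.LC.Stm4
import Pool.Agent.TH890.DV.C1
import Pool.Agent.N490.LC.Null

/-!
# Project LC, part LC12: number of integers `n` with `H₁(d) + H₂(e) = g`
-/

set_option autoImplicit false

namespace Pool.Agent.N490.LC

open Finset Filter
open Pool.Agent.N912.LC
open Pool.Agent.TH890.DV (LogNull cnt_core Qp_inj)
open Pool.Agent.W78.GT (Qp)

/-- the size of `n` -/
theorem n_le {A B C : ℤ} (hA : 0 < A) {X d e n : ℕ}
    (h1 : (d : ℤ) * e = A * (n : ℤ) ^ 2 + B * n + C) (h3 : d ≤ X) (h5 : e ≤ X) :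
    n ≤ X + B.natAbs + C.natAbs := by
  by_contra hcon
  push Not at hcon
  obtain ⟨b, hb⟩ : ∃ b : ℤ, b = |B| := ⟨_, rfl⟩
  obtain ⟨c, hc⟩ : ∃ c : ℤ, c = |C| := ⟨_, rfl⟩
  have hB : -b ≤ B := by rw [hb]; exact neg_abs_le B
  have hC : -c ≤ C := by rw [hc]; exact neg_abs_le C
  have hb0 : 0 ≤ b := by rw [hb]; exact abs_nonneg B
  have hc0 : 0 ≤ c := by rw [hc]; exact abs_nonneg C
  have h6 : (X : ℤ) + b + c + 1 ≤ n := by
    rw [hb, hc, Int.abs_eq_natAbs, Int.abs_eq_natAbs]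
    exact_mod_cast hcon
  have h7 : (d : ℤ) * e ≤ X * X := by exact_mod_cast Nat.mul_le_mul h3 h5
  have hX : (0 : ℤ) ≤ X := Nat.cast_nonneg X
  have hn : (0 : ℤ) ≤ n := Nat.cast_nonneg n
  have h8 : (n : ℤ) ^ 2 ≤ A * (n : ℤ) ^ 2 := le_mul_of_one_le_left (sq_nonneg _) hA
  have h9 : -b * n ≤ B * n := mul_le_mul_of_nonneg_right hB hn
  have h10 : (X + c + 1) * (X + c + 1) ≤ (n : ℤ) * (n - b) :=
    mul_le_mul (by linarith) (by linarith) (by positivity) hn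
  nlinarith

/-- the size of `n`, sharp form -/
theorem n_le' {A B C : ℤ} (hA : 0 < A) {X d e n : ℕ}
    (h1 : (d : ℤ) * e = A * (n : ℤ) ^ 2 + B * n + C) (h3 : 2 * d ≤ X) (h5 : 2 * e ≤ X)
    (hX : 2 * B.natAbs + 4 * C.natAbs + 1 ≤ X) : n ≤ X := by
  by_contra hcon
  push Not at hcon
  obtain ⟨b, hb⟩ : ∃ b : ℤ, b = |B| := ⟨_, rfl⟩
  obtain ⟨c, hc⟩ : ∃ c : ℤ, c = |C| := ⟨_, rfl⟩
  have hB : -b ≤ B := by rw [hb]; exact neg_abs_le B
  have hC : -c ≤ C := by rw [hc]; exact neg_abs_le C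
  have hb0 : 0 ≤ b := by rw [hb]; exact abs_nonneg B
  have hc0 : 0 ≤ c := by rw [hc]; exact abs_nonneg C
  have h6 : (X : ℤ) + 1 ≤ n := by exact_mod_cast hcon
  have hX' : 2 * b + 4 * c + 1 ≤ X := by
    rw [hb, hc, Int.abs_eq_natAbs, Int.abs_eq_natAbs]
    exact_mod_cast hX
  have h7 : 4 * ((d : ℤ) * e) ≤ X * X := by
    have : (2 * d) * (2 * e) ≤ X * X := Nat.mul_le_mul h3 h5
    have h8 : ((2 * d : ℕ) : ℤ) * ((2 * e : ℕ) : ℤ) ≤ X * X := by exact_mod_cast this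
    push_cast at h8
    linarith
  have hX0 : (0 : ℤ) ≤ X := Nat.cast_nonneg X
  have hn : (0 : ℤ) ≤ n := Nat.cast_nonneg n
  have h8 : (n : ℤ) ^ 2 ≤ A * (n : ℤ) ^ 2 := le_mul_of_one_le_left (sq_nonneg _) hA
  have h9 : -b * n ≤ B * n := mul_le_mul_of_nonneg_right hB hn
  have h10 : 2 * b * n ≤ n * n := mul_le_mul_of_nonneg_right (by linarith) hn
  have h11 : (X : ℤ) * X ≤ n * n := mul_le_mul (by linarith) (by linarith) hX0 hn
  have h12 : (4 * c + 1) * 1 ≤ (X : ℤ) * X := mul_le_mul (by linarith) (by linarith) zero_le_one hX0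
  nlinarith

theorem mem_half {A B C : ℤ} {X : ℕ} {y : ℕ × ℕ × ℕ} : y ∈ TQ A B C 0 (1 / 2) 0 (1 / 2) (X : ℝ) ↔
    (y.1 : ℤ) * y.2.1 = A * (y.2.2 : ℤ) ^ 2 + B * y.2.2 + C ∧ 0 < y.1 ∧ 2 * y.1 ≤ X ∧ 0 < y.2.1 ∧
      2 * y.2.1 ≤ X := by
  have h : ∀ a : ℕ, (a : ℝ) ≤ 1 / 2 * X ↔ 2 * a ≤ X := by
    intro a
    rw [← Nat.cast_le (α := ℝ)]
    push_cast
    constructor <;> intro h <;> linarith
  unfold TQ
  rw [Set.mem_ofPred_eq]
  simp only [zero_mul, Nat.cast_pos, h]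

theorem half_eq (A B C : ℤ) (X : ℕ) :
    TQ A B C 0 1 0 1 ((X / 2 : ℕ) : ℝ) = TQ A B C 0 (1 / 2) 0 (1 / 2) (X : ℝ) := by
  ext y
  rw [mem_half]
  unfold TQ
  rw [Set.mem_ofPred_eq]
  simp only [zero_mul, one_mul, Nat.cast_pos, Nat.cast_le]
  have h : ∀ a : ℕ, a ≤ X / 2 ↔ 2 * a ≤ X := fun a => by omega
  rw [h, h]

theorem half_fin {A B C : ℤ} (hA : 0 < A) (X : ℕ) : (TQ A B C 0 (1 / 2) 0 (1 / 2) (X : ℝ)).Finite := by
  refine Set.Finite.subset (((Iic X) ×ˢ (Iic X) ×ˢ (Iic (X + B.natAbs + C.natAbs)) :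
    Finset (ℕ × ℕ × ℕ)).finite_toSet) ?_
  intro y hy
  obtain ⟨h1, h2, h3, h4, h5⟩ := mem_half.1 hy
  rw [mem_coe, mem_product, mem_product, mem_Iic, mem_Iic, mem_Iic]
  exact ⟨by omega, by omega, n_le hA h1 (by omega) (by omega)⟩

open scoped Classical in
/-- the triples in the residue class of `u` -/
noncomputable def U {A : ℤ} (hA : 0 < A) (B C : ℤ) (q u X : ℕ) : Finset (ℕ × ℕ × ℕ) :=
  (half_fin (B := B) (C := C) hA X).toFinset.filter (fun y => y.2.2 ≡ u [MOD q])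

theorem mem_U {A B C : ℤ} (hA : 0 < A) {q u X : ℕ} {y : ℕ × ℕ × ℕ} : y ∈ U hA B C q u X ↔
    ((y.1 : ℤ) * y.2.1 = A * (y.2.2 : ℤ) ^ 2 + B * y.2.2 + C ∧ 0 < y.1 ∧ 2 * y.1 ≤ X ∧ 0 < y.2.1 ∧
      2 * y.2.1 ≤ X) ∧ y.2.2 ≡ u [MOD q] := by
  unfold U
  rw [mem_filter, Set.Finite.mem_toFinset, mem_half]

/-- the lower bound for the number of triples -/
theorem U_ge (h10 : S_LC10) {A B C : ℤ} (hA : 0 < A) (hD : B ^ 2 < 4 * A * C) {q u : ℕ} (hq : 1 ≤ q) :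
    ∃ c₁ : ℝ, 0 < c₁ ∧ ∃ X₀ : ℕ, ∀ X : ℕ, X₀ ≤ X → c₁ * X ≤ ((U hA B C q u X).card : ℝ) := by
  obtain ⟨c₁, hc₁, X₀, h⟩ := h10 A B C hA hD q u hq
  refine ⟨c₁ / 4, by positivity, 2 * X₀ + 2, fun X hX => ?_⟩
  have h1 := h (X / 2) (by omega)
  have e : {y ∈ TQ A B C 0 1 0 1 ((X / 2 : ℕ) : ℝ) | y.2.2 ≡ u [MOD q]} =
      ((U hA B C q u X : Finset (ℕ × ℕ × ℕ)) : Set (ℕ × ℕ × ℕ)) := by
    rw [half_eq]
    ext y
    rw [mem_coe, mem_U, Set.mem_ofPred_eq, mem_half]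
  rw [e, Set.ncard_coe_finset] at h1
  refine le_trans ?_ h1
  have h2 : (X : ℝ) ≤ 4 * ((X / 2 : ℕ) : ℝ) := by
    have : X ≤ 4 * (X / 2) := by omega
    exact_mod_cast this
  have h3 : c₁ / 4 * X ≤ c₁ / 4 * (4 * ((X / 2 : ℕ) : ℝ)) := mul_le_mul_of_nonneg_left h2 (by positivity)
  linarith

section

variable {G : Type} [AddCommGroup G]

/-- the deviation -/
noncomputable def Dev (A B C : ℤ) (q u : ℕ) (H₁ H₂ : ℕ → G) (g : G) (r r' X : ℕ) : ℝ :=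
  |(Set.ncard {y ∈ TR A B C q u r r' 0 (1 / 2) 0 (1 / 2) X | H₁ y.1 + H₂ y.2.1 = g} : ℝ) -
        (Set.ncard (TR A B C q u r r' 0 (1 / 2) 0 (1 / 2) X) : ℝ) / Nat.card G|

open scoped Classical in
theorem fib (S : Finset (ℕ × ℕ × ℕ)) {q : ℕ} (hq : 1 ≤ q) :
    (S.card : ℝ) = ∑ ρ ∈ range q ×ˢ range q,
      ((S.filter (fun y => y.1 ≡ ρ.1 [MOD q] ∧ y.2.1 ≡ ρ.2 [MOD q])).card : ℝ) := by
  have hm : ∀ y ∈ S, (y.1 % q, y.2.1 % q) ∈ range q ×ˢ range q := fun y _ =>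
    mem_product.2 ⟨mem_range.2 (Nat.mod_lt _ (by omega)), mem_range.2 (Nat.mod_lt _ (by omega))⟩
  rw [card_eq_sum_card_fiberwise hm]
  push_cast
  refine sum_congr rfl fun ρ hρ => ?_
  obtain ⟨h1, h2⟩ := mem_product.1 hρ
  congr 2
  ext y
  rw [mem_filter, mem_filter]
  refine and_congr_right fun _ => ?_
  unfold Nat.ModEq
  rw [Nat.mod_eq_of_lt (mem_range.1 h1), Nat.mod_eq_of_lt (mem_range.1 h2), Prod.ext_iff]

open scoped Classical in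
/-- the triples with `H₁(d) + H₂(e) = g` at good scales -/
theorem V_ge {A B C : ℤ} (hA : 0 < A) {q u : ℕ} (hq : 1 ≤ q) (H₁ H₂ : ℕ → G) (g : G) {X : ℕ} {η : ℝ}
    (h : ∀ r < q, ∀ r' < q, Dev A B C q u H₁ H₂ g r r' X ≤ η) :
    ((U hA B C q u X).card : ℝ) / Nat.card G - (q : ℝ) ^ 2 * η ≤
      (((U hA B C q u X).filter (fun y => H₁ y.1 + H₂ y.2.1 = g)).card : ℝ) := by
  rw [fib (U hA B C q u X) hq, fib ((U hA B C q u X).filter (fun y => H₁ y.1 + H₂ y.2.1 = g)) hq]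
  have h1 : (q : ℝ) ^ 2 * η = ∑ ρ ∈ range q ×ˢ range q, η := by
    rw [sum_const, card_product, card_range, nsmul_eq_mul]
    push_cast
    ring
  rw [h1, sum_div, ← sum_sub_distrib]
  refine sum_le_sum fun ρ hρ => ?_
  obtain ⟨h2, h3⟩ := mem_product.1 hρ
  have h4 := h ρ.1 (mem_range.1 h2) ρ.2 (mem_range.1 h3)
  unfold Dev at h4
  have e1 : TR A B C q u ρ.1 ρ.2 0 (1 / 2) 0 (1 / 2) X =
      (((U hA B C q u X).filter (fun y => y.1 ≡ ρ.1 [MOD q] ∧ y.2.1 ≡ ρ.2 [MOD q]) :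
        Finset (ℕ × ℕ × ℕ)) : Set (ℕ × ℕ × ℕ)) := by
    ext y
    unfold TR
    rw [mem_coe, mem_filter, mem_U, Set.mem_ofPred_eq, mem_half]
    tauto
  have e2 : {y ∈ TR A B C q u ρ.1 ρ.2 0 (1 / 2) 0 (1 / 2) X | H₁ y.1 + H₂ y.2.1 = g} =
      ((((U hA B C q u X).filter (fun y => H₁ y.1 + H₂ y.2.1 = g)).filter
        (fun y => y.1 ≡ ρ.1 [MOD q] ∧ y.2.1 ≡ ρ.2 [MOD q]) :
        Finset (ℕ × ℕ × ℕ)) : Set (ℕ × ℕ × ℕ)) := by
    ext y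
    rw [Set.mem_ofPred_eq, e1, mem_coe, mem_coe, mem_filter, mem_filter, mem_filter]
    tauto
  rw [e2, e1, Set.ncard_coe_finset, Set.ncard_coe_finset] at h4
  have h5 := (abs_le.1 h4).1
  linarith

theorem cG_mono (A B C : ℤ) (q u : ℕ) (H₁ H₂ : ℕ → G) (g : G) : Monotone (cG A B C q u H₁ H₂ g) := by
  intro X Y h
  unfold cG
  refine Set.ncard_le_ncard ?_ ((Set.finite_Iic Y).subset fun n hn => hn.1)
  rintro n ⟨h1, h2, d, e, h3, h4, h5, h6⟩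
  exact ⟨h1.trans h, h2, d, e, h3.trans h, h4.trans h, h5, h6⟩

/-- LC12 at one scale -/
theorem one_scale {A B C t c : ℤ} (hA : 0 < A) (ht : t = 0 ∨ t = 1) (htc : t ^ 2 < 4 * c)
    (hD : B ^ 2 - 4 * A * C = t ^ 2 - 4 * c) (H₁ H₂ : ℕ → G) (g : G) (q u : ℕ) {b : ℝ} (hb : 0 < b)
    {ε : ℝ} (hε : 0 < ε) : ∃ N₀ : ℕ, ∀ X : ℕ, N₀ ≤ X → open scoped Classical in
      b * X ≤ (((U hA B C q u X).filter (fun y => H₁ y.1 + H₂ y.2.1 = g)).card : ℝ) →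
      (X : ℝ) / Real.log X ^ (Real.log 2 + ε) ≤ cG A B C q u H₁ H₂ g X := by
  classical
  -- completing the square
  have ht0 : 0 ≤ t := by omega
  obtain ⟨κ, hκ⟩ : ∃ κ : ℤ, B = 2 * κ + t := by
    have h1 : Even (B ^ 2 - t ^ 2) := ⟨2 * (A * C - c), by linarith⟩
    have h2 : Even (B ^ 2 - t ^ 2) ↔ (Even B ↔ Even t) := by
      rw [Int.even_sub, Int.even_pow' two_ne_zero, Int.even_pow' two_ne_zero]
    have h3 : Even (B - t) := Int.even_sub.2 (h2.1 h1)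
    obtain ⟨κ, hκ⟩ := h3
    exact ⟨κ, by linarith⟩
  have hκ2 : κ ^ 2 + t * κ + c = A * C := by
    rw [hκ] at hD
    linarith
  have hns : ¬ IsSquare (t ^ 2 - 4 * c) := by
    rintro ⟨x, hx⟩
    nlinarith [mul_self_nonneg x]
  obtain ⟨a, ha⟩ : ∃ a : ℕ, (a : ℤ) = A := ⟨A.toNat, Int.toNat_of_nonneg hA.le⟩
  have ha1 : 1 ≤ a := by
    have : (0 : ℤ) < a := by rw [ha]; exact hA
    exact_mod_cast this
  obtain ⟨m₀, hm₀⟩ : ∃ m₀ : ℕ, m₀ = κ.natAbs := ⟨_, rfl⟩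
  have hm₀' : -(m₀ : ℤ) ≤ κ := by rw [hm₀]; omega
  obtain ⟨β, hβ⟩ : ∃ β : ℕ, (β : ℤ) = κ + A * m₀ := by
    refine ⟨(κ + A * m₀).toNat, Int.toNat_of_nonneg ?_⟩
    have : (m₀ : ℤ) ≤ A * m₀ := le_mul_of_one_le_left (Nat.cast_nonneg _) hA
    linarith
  obtain ⟨P, hP⟩ : ∃ P : ℕ → ℤ, P = fun n : ℕ => A * (n : ℤ) ^ 2 + B * n + C := ⟨_, rfl⟩
  have hPQ : ∀ n : ℕ, A * P n = Qp t c (A * n + κ) := by
    intro n
    rw [hP]
    unfold Qp
    show A * (A * (n : ℤ) ^ 2 + B * n + C) = (A * n + κ) ^ 2 + t * (A * n + κ) + c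
    rw [hκ]
    linear_combination -hκ2
  have hPpos : ∀ n : ℕ, 0 ≤ P n := by
    intro n
    have h1 : 0 < A * P n := by
      rw [hPQ]
      unfold Qp
      nlinarith [sq_nonneg (2 * (A * (n : ℤ) + κ) + t)]
    by_contra hneg
    push Not at hneg
    have := mul_neg_of_pos_of_neg hA hneg
    linarith
  obtain ⟨F, hF⟩ : ∃ F : ℕ → ℕ, F = fun m => (P (m + m₀)).toNat := ⟨_, rfl⟩
  have hFP : ∀ m, (F m : ℤ) = P (m + m₀) := by
    intro m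
    rw [hF]
    exact Int.toNat_of_nonneg (hPpos _)
  have hFQ : ∀ m : ℕ, (a : ℤ) * F m = Qp t c (a * m + β) := by
    intro m
    rw [ha, hFP, hPQ, hβ]
    push_cast
    congr 1
    ring
  have hFinj : Function.Injective F := by
    intro m n h
    have h1 : Qp t c ((a : ℤ) * m + β) = Qp t c ((a : ℤ) * n + β) := by rw [← hFQ, ← hFQ, h]
    have h2 := Qp_inj (t := t) (c := c) (by positivity) (by positivity) h1
    have h3 : (a : ℤ) * m = a * n := by linarith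
    have h4 : a * m = a * n := by exact_mod_cast h3
    exact Nat.eq_of_mul_eq_mul_left (by omega) h4
  obtain ⟨N₁, hcore⟩ := cnt_core hns (F := F) ha1 ht0 hFQ (b / 2) ε (by positivity) hε
  -- the triples with small `n`
  obtain ⟨W, hW⟩ : ∃ W : ℕ, ∀ n < m₀, P n ≤ W := by
    refine ⟨∑ n ∈ range m₀, (P n).toNat, fun n hn => ?_⟩
    have h1 : (P n).toNat ≤ ∑ n ∈ range m₀, (P n).toNat :=
      single_le_sum (f := fun n => (P n).toNat) (fun _ _ => Nat.zero_le _) (mem_range.2 hn)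
    have h2 : (P n : ℤ) = ((P n).toNat : ℤ) := (Int.toNat_of_nonneg (hPpos n)).symm
    rw [h2]
    exact_mod_cast h1
  obtain ⟨K, hK⟩ : ∃ K : ℕ, K = ((Iic W) ×ˢ (Iic W) ×ˢ (range m₀) : Finset (ℕ × ℕ × ℕ)).card := ⟨_, rfl⟩
  obtain ⟨N₂, hN₂⟩ := exists_nat_ge (2 * K / b)
  refine ⟨max (max N₁ N₂) (2 * B.natAbs + 4 * C.natAbs + 1), fun X hX hV => ?_⟩
  have hX1 : N₁ ≤ X := (le_max_left _ _).trans ((le_max_left _ _).trans hX)
  have hX2 : N₂ ≤ X := (le_max_right _ _).trans ((le_max_left _ _).trans hX)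
  have hX3 : 2 * B.natAbs + 4 * C.natAbs + 1 ≤ X := (le_max_right _ _).trans hX
  obtain ⟨V, hVd⟩ : ∃ V : Finset (ℕ × ℕ × ℕ), V = (U hA B C q u X).filter (fun y => H₁ y.1 + H₂ y.2.1 = g) :=
    ⟨_, rfl⟩
  have hV' : b * X ≤ (V.card : ℝ) := by
    rw [hVd]
    exact hV
  have hVm : ∀ y ∈ V, (y.1 : ℤ) * y.2.1 = P y.2.2 ∧ 0 < y.1 ∧ 2 * y.1 ≤ X ∧ 0 < y.2.1 ∧
      2 * y.2.1 ≤ X ∧ y.2.2 ≡ u [MOD q] ∧ H₁ y.1 + H₂ y.2.1 = g := by
    intro y hy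
    rw [hVd, mem_filter, mem_U] at hy
    obtain ⟨⟨⟨h1, h2, h3, h4, h5⟩, h6⟩, h7⟩ := hy
    refine ⟨?_, h2, h3, h4, h5, h6, h7⟩
    rw [hP]
    exact h1
  obtain ⟨V₁, hV₁⟩ : ∃ V₁ : Finset (ℕ × ℕ × ℕ), V₁ = V.filter (fun y => m₀ ≤ y.2.2) := ⟨_, rfl⟩
  have hcard : V.card ≤ V₁.card + K := by
    rw [← card_filter_add_card_filter_not (s := V) (fun y => m₀ ≤ y.2.2), hV₁, hK]
    refine Nat.add_le_add le_rfl (card_le_card fun y hy => ?_)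
    rw [mem_filter] at hy
    obtain ⟨h1, h2, h3, h4, h5, h6, h7⟩ := hVm y hy.1
    have h8 : y.2.2 < m₀ := by
      have := hy.2
      push Not at this
      exact this
    have h9 : y.1 * y.2.1 ≤ W := by
      have := hW y.2.2 h8
      rw [← h1] at this
      exact_mod_cast this
    rw [mem_product, mem_product, mem_Iic, mem_Iic, mem_range]
    exact ⟨(Nat.le_mul_of_pos_right _ h4).trans h9, (Nat.le_mul_of_pos_left _ h2).trans h9, h8⟩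
  have hV₁m : ∀ y ∈ V₁, y ∈ V ∧ m₀ ≤ y.2.2 ∧ y.1 * y.2.1 = F (y.2.2 - m₀) := by
    intro y hy
    rw [hV₁, mem_filter] at hy
    refine ⟨hy.1, hy.2, ?_⟩
    have h1 := (hVm y hy.1).1
    have h2 : (((y.1 * y.2.1 : ℕ)) : ℤ) = F (y.2.2 - m₀) := by
      rw [hFP, Nat.sub_add_cancel hy.2]
      push_cast
      exact h1
    exact_mod_cast h2
  have hinj : Set.InjOn (fun y : ℕ × ℕ × ℕ => (y.1, y.2.1)) (V₁ : Set (ℕ × ℕ × ℕ)) := by
    intro y hy y' hy' he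
    rw [mem_coe] at hy hy'
    obtain ⟨_, h2, h3⟩ := hV₁m y hy
    obtain ⟨_, h2', h3'⟩ := hV₁m y' hy'
    simp only [Prod.mk.injEq] at he
    obtain ⟨e1, e2⟩ := he
    rw [e1, e2, h3'] at h3
    have h4 := hFinj h3
    exact Prod.ext e1 (Prod.ext e2 (by omega))
  have h1 := hcore X hX1 (V₁.image (fun y => (y.1, y.2.1))) (by
    intro p hp
    rw [mem_image] at hp
    obtain ⟨y, hy, rfl⟩ := hp
    obtain ⟨hyV, h2, h3⟩ := hV₁m y hy
    obtain ⟨h4, h5, h6, h7, h8, h9, h10⟩ := hVm y hyV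
    exact ⟨h5, by show y.1 ≤ X; omega, h7, by show y.2.1 ≤ X; omega, _, h3⟩) (by
    rw [card_image_of_injOn hinj]
    have h2 : (V.card : ℝ) ≤ V₁.card + K := by exact_mod_cast hcard
    have h3 : (2 : ℝ) * K ≤ b * X := by
      have h4 : (N₂ : ℝ) ≤ X := by exact_mod_cast hX2
      have h5 := hN₂.trans h4
      rw [div_le_iff₀ hb] at h5
      linarith
    linarith) (V₁.image (fun y => y.2.2 - m₀)) (by
    rintro m ⟨p, hp, hm⟩
    rw [mem_image] at hp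
    obtain ⟨y, hy, rfl⟩ := hp
    obtain ⟨hyV, h2, h3⟩ := hV₁m y hy
    rw [mem_image]
    refine ⟨y, hy, hFinj ?_⟩
    rw [← h3, ← hm])
  refine h1.trans ?_
  have h2 : (V₁.image (fun y => y.2.2 - m₀)).card ≤ cG A B C q u H₁ H₂ g X := by
    rw [← card_image_of_injective _ (add_left_injective m₀)]
    unfold cG
    rw [← Set.ncard_coe_finset]
    refine Set.ncard_le_ncard ?_ ((Set.finite_Iic X).subset fun n hn => hn.1)
    intro n hn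
    rw [mem_coe, mem_image] at hn
    obtain ⟨m, hm, rfl⟩ := hn
    rw [mem_image] at hm
    obtain ⟨y, hy, rfl⟩ := hm
    obtain ⟨hyV, h2, h3⟩ := hV₁m y hy
    obtain ⟨h4, h5, h6, h7, h8, h9, h10⟩ := hVm y hyV
    have e : y.2.2 - m₀ + m₀ = y.2.2 := Nat.sub_add_cancel h2
    rw [hP] at h4
    show _ ∈ _
    simp only [e]
    exact ⟨n_le' hA h4 h6 h8 hX3, h9, y.1, y.2.1, by omega, by omega, h4, h10⟩
  exact_mod_cast h2

end

theorem finmg (h : S_FING) (h10 : S_LC10) : S_FINMG := by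
  classical
  intro A B C t c hA ht htc hD G _ _ H₁ H₂ hyp q u g hq
  have hmain : ∀ ε : ℝ, 0 < ε → LogNull (fun X : ℕ =>
      (cG A B C q u H₁ H₂ g X : ℝ) < (X : ℝ) / Real.log X ^ (Real.log 2 + ε)) := by
    intro ε hε
    have hdisc : B ^ 2 < 4 * A * C := by linarith
    obtain ⟨c₁, hc₁, X₀, hlow⟩ := U_ge h10 hA hdisc (u := u) hq
    have hG0 : (0 : ℝ) < Nat.card G := by exact_mod_cast Nat.card_pos
    have hq0 : (0 : ℝ) < q := by exact_mod_cast hq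
    obtain ⟨b, hb⟩ : ∃ b : ℝ, b = c₁ / (2 * Nat.card G) := ⟨_, rfl⟩
    have hb0 : 0 < b := by rw [hb]; positivity
    obtain ⟨N₁, hN₁⟩ := one_scale hA ht htc hD H₁ H₂ g q u hb0 hε
    have hdev : ∀ r, r < q → LogNull (fun X => ∃ r', r' < q ∧ b / (q : ℝ) ^ 2 * X <
        Dev A B C q u H₁ H₂ g r r' X) := by
      intro r _
      refine LogNull.exists_lt fun r' _ => ?_
      refine tt (fun X => abs_nonneg _) (fun ε' hε' => ?_) (b / (q : ℝ) ^ 2) (by positivity)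
      exact h A B C t c hA ht htc hD G H₁ H₂ hyp q u r r' g hq 0 (1 / 2) 0 (1 / 2) le_rfl (by norm_num)
        le_rfl (by norm_num) ε' hε'
    refine LogNull.of_ev (max X₀ N₁) (fun X hX hlt => ?_) (LogNull.exists_lt hdev)
    by_contra hcon
    push Not at hcon
    have h1 := hlow X ((le_max_left _ _).trans hX)
    have h2 := V_ge hA hq H₁ H₂ g (X := X) (η := b / (q : ℝ) ^ 2 * X) hcon
    have h3 : (q : ℝ) ^ 2 * (b / (q : ℝ) ^ 2 * X) = b * X := by field_simp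
    have h4 : 2 * (b * X) ≤ ((U hA B C q u X).card : ℝ) / Nat.card G := by
      rw [le_div_iff₀ hG0, hb]
      refine le_trans (le_of_eq ?_) h1
      field_simp
    rw [h3] at h2
    have h5 := hN₁ X ((le_max_right _ _).trans hX) (by linarith)
    linarith
  refine ⟨hmain, fun δ hδ => ?_⟩
  have hl2 : 0 < Real.log 2 + 1 := by
    have := Real.log_pos (show (1 : ℝ) < 2 by norm_num)
    linarith
  exact all_of (cG_mono A B C q u H₁ H₂ g) hl2 (hmain 1 one_pos) δ hδ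

end Pool.Agent.N490.LC
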